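import Pool.Agent.Lib.MP_8fe63c_mp.FFin

/-!
Second order expansion of the ground state energy of the three-body Bose gas in the
Gross-Pitaevskii regime.
-/

open MeasureTheory Pool.Agent.Lib.MP_8fe63c_mp

theorem Pool.Agent.Results.MP_8fe63c_mp.SecondOrder.result
    (V : R3 × R3 → ℝ) (Vext : R3 → ℝ)
    (V_meas : AEMeasurable V volume) (V_nonneg : ∀ x, 0 ≤ V x) (V_bdd : ∃ M : ℝ, ∀ x, V x ≤ M)
    (V_supp : HasCompactSupport V)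
    (V_symm₁ : ∀ x y : R3, V (x, y) = V (y, x))
    (V_symm₂ : ∀ x y z : R3, V (x - y, x - z) = V (y - x, y - z))
    (V_symm₃ : ∀ x y z : R3, V (y - x, y - z) = V (z - y, z - x))
    (Vext_meas : AEStronglyMeasurable Vext volume)
    (Vext_locBdd : ∀ R : ℝ, ∃ M : ℝ, ∀ᵐ x, ‖x‖ ≤ R → |Vext x| ≤ M)
    (Vext_grows : ∃ C α : ℝ, 0 < C ∧ 0 < α ∧ ∀ᵐ x, C * ‖x‖ ^ α ≤ Vext x) :
    ∃ C₂ K : ℝ, ∀ N : ℕ, |EN V Vext N - N * eGP Vext (bM V) - √(N : ℝ) * C₂| ≤ K :=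
  have _ := V_symm₃
  main V_meas V_nonneg V_bdd V_supp V_symm₁ V_symm₂ Vext_meas Vext_locBdd Vext_grows
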